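import Mathlib

set_option autoImplicit false

/-!
# Thresholds of a graph `H`: definitions shared by MP_0aef5d and MP_dfc8ea
-/

namespace Pool.Agent.X51.Wheel

open SimpleGraph

/-- `G` is maximal `H`-free: it contains no copy of `H`, but adding any edge between two distinct
non-adjacent vertices creates a copy of `H`. -/
def MaximalFree {W V : Type} (H : SimpleGraph W) (G : SimpleGraph V) : Prop :=
  H.Free G ∧ ∀ x y, x ≠ y → ¬ G.Adj x y → ¬ H.Free (G ⊔ edge x y)

/-- `G` is a blowup of `F`: the classes are the fibres of a surjection `φ`, and adjacency in `G` is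
adjacency in `F` of the classes (so every class is a nonempty independent set). -/
def IsBlowup {V W : Type} (G : SimpleGraph V) (F : SimpleGraph W) : Prop :=
  ∃ φ : V → W, Function.Surjective φ ∧ ∀ x y, G.Adj x y ↔ F.Adj (φ x) (φ y)

/-- The VC-dimension of the family of neighbourhoods of `G`: the largest size of a set `S` of
vertices such that every `T ⊆ S` is the trace `N(v) ∩ S` of some neighbourhood. -/
noncomputable def VC {V : Type} [Fintype V] (G : SimpleGraph V) : ℕ :=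
  sSup {k : ℕ | ∃ S : Finset V, S.card = k ∧
    ∀ T ⊆ S, ∃ v, G.neighborSet v ∩ (S : Set V) = (T : Set V)}

open Classical in
/-- `δ(G) ≥ α |G|`. -/
def MinDegreeGe {V : Type} [Fintype V] (G : SimpleGraph V) (α : ℝ) : Prop :=
  α * (Fintype.card V : ℝ) ≤ (G.minDegree : ℝ)

/-- The VC-threshold `δ_VC(H)`. -/
noncomputable def deltaVC {W : Type} (H : SimpleGraph W) : ℝ :=
  sInf {α : ℝ | 0 ≤ α ∧ ∃ C : ℕ, ∀ (n : ℕ) (G : SimpleGraph (Fin n)), MaximalFree H G →
    MinDegreeGe G α → VC G ≤ C}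

/-- The blowup threshold `δ_B(H)`. -/
noncomputable def deltaB {W : Type} (H : SimpleGraph W) : ℝ :=
  sInf {α : ℝ | 0 ≤ α ∧ ∃ C : ℕ, ∀ (n : ℕ) (G : SimpleGraph (Fin n)), MaximalFree H G →
    MinDegreeGe G α → ∃ (m : ℕ) (F : SimpleGraph (Fin m)), m ≤ C ∧ IsBlowup G F}

/-- The homomorphism threshold `δ_hom(H)`. -/
noncomputable def deltaHom {W : Type} (H : SimpleGraph W) : ℝ :=
  sInf {α : ℝ | 0 ≤ α ∧ ∃ (m : ℕ) (F : SimpleGraph (Fin m)), H.Free F ∧
    ∀ (n : ℕ) (G : SimpleGraph (Fin n)), H.Free G → MinDegreeGe G α → Nonempty (G →g F)}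

/-- The wheel with four spokes `K_{1,2,2}`: `0` is the hub, and `1,2,3,4` is the rim. -/
def wheel : SimpleGraph (Fin 5) where
  Adj i j := i ≠ j ∧ (i = 0 ∨ j = 0 ∨ (i.val + j.val) % 2 = 1)
  symm := ⟨fun i j h => ⟨h.1.symm, by rw [add_comm j.val i.val]; tauto⟩⟩
  loopless := ⟨fun _ h => h.1 rfl⟩

end Pool.Agent.X51.Wheel
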