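import Pool.Agent.X51.Wheel.Defs

set_option autoImplicit false

/-!
# The structure of wheel-free graphs with minimum degree at least `0.49 n`

Such a graph with at least `1000` vertices has a partition into two classes in which every vertex
has at most one neighbour inside its own class.
-/

namespace Pool.Agent.X51.Wheel

open SimpleGraph Finset

/-- A Bonferroni-type inequality. -/
theorem sum_card_le {α β : Type} [DecidableEq α] [DecidableEq β] (S : β → Finset α) (c : ℕ)
    (T : Finset β) :
    (∀ x ∈ T, ∀ y ∈ T, x ≠ y → (S x ∩ S y).card ≤ c) →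
    ∑ y ∈ T, (S y).card ≤ (T.biUnion S).card + c * (T.card * T.card) := by
  induction T using Finset.induction_on with
  | empty => simp
  | insert a T ha ih =>
    intro h
    have ih' := ih fun x hx y hy => h x (mem_insert_of_mem hx) y (mem_insert_of_mem hy)
    rw [sum_insert ha, biUnion_insert, card_insert_of_notMem ha]
    have h1 : (S a ∪ T.biUnion S).card + (S a ∩ T.biUnion S).card =
        (S a).card + (T.biUnion S).card := card_union_add_card_inter _ _
    have h2 : (S a ∩ T.biUnion S).card ≤ T.card * c := by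
      rw [inter_biUnion]
      refine card_biUnion_le.trans ?_
      rw [← smul_eq_mul]
      apply sum_le_card_nsmul
      intro y hy
      exact h a (mem_insert_self a T) y (mem_insert_of_mem hy) (fun hay => ha (hay ▸ hy))
    nlinarith

variable {V : Type} [Fintype V] [DecidableEq V] (G : SimpleGraph V) [DecidableRel G.Adj]

/-- neighbourhood -/
abbrev nb (v : V) : Finset V := univ.filter fun w => G.Adj v w

/-- light neighbours -/
abbrev lt (v : V) : Finset V := (nb G v).filter fun w => (nb G v ∩ nb G w).card ≤ 3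

omit [DecidableEq V] in
theorem mem_nb {v w : V} : w ∈ nb G v ↔ G.Adj v w := by simp

theorem mem_lt {v w : V} : w ∈ lt G v ↔ G.Adj v w ∧ (nb G v ∩ nb G w).card ≤ 3 := by simp

theorem lt_symm {v w : V} (h : w ∈ lt G v) : v ∈ lt G w := by
  rw [mem_lt] at h ⊢
  exact ⟨h.1.symm, by rw [inter_comm]; exact h.2⟩

theorem structure_thm (d n : ℕ) (hn : Fintype.card V = n) (hbig : 1000 ≤ n) (hd : 49 * n ≤ 100 * d)
    (hdeg : ∀ v, d ≤ (nb G v).card)
    (hw : ∀ v x y, x ≠ y → G.Adj v x → G.Adj v y → (nb G v ∩ nb G x ∩ nb G y).card ≤ 1) :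
    ∃ c : V → Bool, ∀ v, ((nb G v).filter fun w => c w = c v).card ≤ 1 := by
  -- dichotomy
  have dich : ∀ v x, G.Adj v x → 4 ≤ (nb G v ∩ nb G x).card →
      10 * d ≤ 4 * n + 32 + 3 * (nb G v ∩ nb G x).card := by
    intro v x hvx h4
    obtain ⟨T, hT1, hT2⟩ := exists_subset_card_eq h4
    set I := nb G v ∪ nb G x with hI
    have hIT : (nb G v ∪ nb G x).card + (nb G v ∩ nb G x).card =
        (nb G v).card + (nb G x).card := card_union_add_card_inter _ _
    have hb := sum_card_le (fun y => nb G y ∩ I) 2 T (by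
      intro y hy z hz hyz
      have hy' := mem_inter.1 (hT1 hy)
      have hz' := mem_inter.1 (hT1 hz)
      rw [mem_nb, mem_nb] at hy' hz'
      have e1 := hw v y z hyz hy'.1 hz'.1
      have e2 := hw x y z hyz hy'.2 hz'.2
      have hsub : (nb G y ∩ I) ∩ (nb G z ∩ I) ⊆
          (nb G v ∩ nb G y ∩ nb G z) ∪ (nb G x ∩ nb G y ∩ nb G z) := by
        intro w hw'
        simp only [hI, mem_inter, mem_union] at hw' ⊢
        tauto
      refine (card_le_card hsub).trans ((card_union_le _ _).trans ?_)
      omega)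
    have hU : (T.biUnion fun y => nb G y ∩ I).card ≤ I.card := by
      apply card_le_card
      intro w hw'
      obtain ⟨y, _, hy⟩ := mem_biUnion.1 hw'
      exact (mem_inter.1 hy).2
    have hout : ∀ y, (nb G y).card ≤ (nb G y ∩ I).card + (n - I.card) := by
      intro y
      have e1 : (nb G y \ I).card + (nb G y ∩ I).card = (nb G y).card :=
        card_sdiff_add_card_inter _ _
      have e2 : (nb G y \ I).card ≤ n - I.card := by
        rw [← hn, ← card_univ, ← card_sdiff_of_subset (subset_univ I)]
        exact card_le_card (sdiff_subset_sdiff (subset_univ _) (le_refl _))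
      omega
    have hsum : ∑ y ∈ T, (nb G y).card ≤ ∑ y ∈ T, ((nb G y ∩ I).card + (n - I.card)) :=
      sum_le_sum fun y _ => hout y
    rw [sum_add_distrib, sum_const, hT2, smul_eq_mul] at hsum
    rw [hT2] at hb
    have hlow : 4 * d ≤ ∑ y ∈ T, (nb G y).card := by
      have : ∑ y ∈ T, d ≤ ∑ y ∈ T, (nb G y).card := sum_le_sum fun y _ => hdeg y
      rwa [sum_const, hT2, smul_eq_mul] at this
    have hIn : I.card ≤ n := by rw [← hn]; exact card_le_univ _
    have d1 := hdeg v
    have d2 := hdeg x
    rw [← hI] at hIT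
    omega
  -- at most three heavy neighbours
  have heavy3 : ∀ v, (nb G v \ lt G v).card ≤ 3 := by
    intro v
    by_contra hcon
    obtain ⟨Z, hZ1, hZ2⟩ := exists_subset_card_eq (show 4 ≤ (nb G v \ lt G v).card by omega)
    have hZ : ∀ z ∈ Z, G.Adj v z ∧ 10 * d ≤ 4 * n + 32 + 3 * (nb G v ∩ nb G z).card := by
      intro z hz
      have h1 := mem_sdiff.1 (hZ1 hz)
      have h2 : G.Adj v z := (mem_nb G).1 h1.1
      refine ⟨h2, dich v z h2 ?_⟩
      by_contra h3
      exact h1.2 ((mem_lt G).2 ⟨h2, by omega⟩)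
    have hb := sum_card_le (fun y => nb G v ∩ nb G y) 1 Z (by
      intro y hy z hz hyz
      have hsub : (nb G v ∩ nb G y) ∩ (nb G v ∩ nb G z) ⊆ nb G v ∩ nb G y ∩ nb G z := by
        intro w hw'
        simp only [mem_inter] at hw' ⊢
        tauto
      exact (card_le_card hsub).trans (hw v y z hyz (hZ y hy).1 (hZ z hz).1))
    have hU : (Z.biUnion fun y => nb G v ∩ nb G y).card ≤ n := by
      rw [← hn]; exact card_le_univ _
    have hlow : 4 * (10 * d) ≤ ∑ y ∈ Z, (4 * n + 32 + 3 * (nb G v ∩ nb G y).card) := by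
      have : ∑ y ∈ Z, (10 * d) ≤ ∑ y ∈ Z, (4 * n + 32 + 3 * (nb G v ∩ nb G y).card) :=
        sum_le_sum fun y hy => (hZ y hy).2
      rwa [sum_const, hZ2, smul_eq_mul] at this
    rw [sum_add_distrib, sum_const, hZ2, smul_eq_mul, ← mul_sum] at hlow
    rw [hZ2] at hb
    omega
  have ltnb : ∀ v, (nb G v \ lt G v).card + (lt G v).card = (nb G v).card := by
    intro v
    exact card_sdiff_add_card_eq_card (filter_subset _ _)
  -- upper bound for the degrees
  have degup : ∀ v, (nb G v).card + d ≤ n + 3 := by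
    intro v
    have h1 := heavy3 v
    have h2 := ltnb v
    have h3 := hdeg v
    have h4 : 0 < (lt G v).card := by omega
    obtain ⟨w, hw'⟩ := card_pos.1 h4
    rw [mem_lt] at hw'
    have h5 : (nb G v ∪ nb G w).card + (nb G v ∩ nb G w).card =
        (nb G v).card + (nb G w).card := card_union_add_card_inter _ _
    have h6 : (nb G v ∪ nb G w).card ≤ n := by rw [← hn]; exact card_le_univ _
    have h7 := hdeg w
    have h8 := hw'.2
    omega
  -- at most one heavy neighbour
  have heavy1 : ∀ v, (nb G v \ lt G v).card ≤ 1 := by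
    intro v
    by_contra hcon
    obtain ⟨x, hx, y, hy, hxy⟩ := one_lt_card.1 (show 1 < (nb G v \ lt G v).card by omega)
    have key : ∀ z ∈ nb G v \ lt G v, G.Adj v z ∧
        10 * d ≤ 4 * n + 32 + 3 * (nb G v ∩ nb G z).card := by
      intro z hz
      have h1 := mem_sdiff.1 hz
      have h2 : G.Adj v z := (mem_nb G).1 h1.1
      refine ⟨h2, dich v z h2 ?_⟩
      by_contra h3
      exact h1.2 ((mem_lt G).2 ⟨h2, by omega⟩)
    obtain ⟨ax, bx⟩ := key x hx
    obtain ⟨ay, hby⟩ := key y hy
    have h1 := hw v x y hxy ax ay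
    have h2 : ((nb G v ∩ nb G x) ∪ (nb G v ∩ nb G y)).card +
        ((nb G v ∩ nb G x) ∩ (nb G v ∩ nb G y)).card =
        (nb G v ∩ nb G x).card + (nb G v ∩ nb G y).card := card_union_add_card_inter _ _
    have h3 : ((nb G v ∩ nb G x) ∪ (nb G v ∩ nb G y)).card ≤ (nb G v).card := by
      apply card_le_card
      intro w hw'
      simp only [mem_union, mem_inter] at hw' ⊢
      tauto
    have h4 : ((nb G v ∩ nb G x) ∩ (nb G v ∩ nb G y)).card ≤ 1 := by
      refine le_trans (card_le_card ?_) h1
      intro w hw'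
      simp only [mem_inter] at hw' ⊢
      tauto
    have h5 := degup v
    omega
  -- a light edge
  have hne : Nonempty V := by
    rw [← Fintype.card_pos_iff]
    omega
  obtain ⟨v⟩ := hne
  obtain ⟨u, hu⟩ : (lt G v).Nonempty := by
    rw [← card_pos]
    have h1 := heavy1 v
    have h2 := ltnb v
    have h3 := hdeg v
    omega
  -- the two light neighbourhoods
  set A := lt G v with hA
  set B := lt G u with hB
  have huv : u ∈ lt G v := hu
  have hvu : v ∈ lt G u := lt_symm G hu
  have cA : d ≤ A.card + 1 := by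
    have h1 := heavy1 v
    have h2 := ltnb v
    have h3 := hdeg v
    rw [← hA] at h1 h2
    omega
  have cB : d ≤ B.card + 1 := by
    have h1 := heavy1 u
    have h2 := ltnb u
    have h3 := hdeg u
    rw [← hB] at h1 h2
    omega
  have cAB : (A ∩ B).card ≤ 3 := by
    have h1 := ((mem_lt G).1 huv).2
    refine le_trans (card_le_card ?_) h1
    exact inter_subset_inter (filter_subset _ _) (filter_subset _ _)
  have cU : (A ∪ B).card + (A ∩ B).card = A.card + B.card := card_union_add_card_inter _ _
  have cUn : (A ∪ B).card ≤ n := by rw [← hn]; exact card_le_univ _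
  -- sizes of neighbourhoods outside `A ∪ B`
  have hsplit : ∀ x, (nb G x).card ≤
      (nb G x ∩ A).card + (nb G x ∩ B).card + (n - (A ∪ B).card) := by
    intro x
    have e1 : (nb G x \ (A ∪ B)).card + (nb G x ∩ (A ∪ B)).card = (nb G x).card :=
      card_sdiff_add_card_inter _ _
    have e2 : (nb G x \ (A ∪ B)).card ≤ n - (A ∪ B).card := by
      rw [← hn, ← card_univ, ← card_sdiff_of_subset (subset_univ (A ∪ B))]
      exact card_le_card (sdiff_subset_sdiff (subset_univ _) (le_refl _))
    have e3 : (nb G x ∩ (A ∪ B)).card ≤ (nb G x ∩ A).card + (nb G x ∩ B).card := by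
      rw [inter_union_distrib_left]
      exact card_union_le _ _
    omega
  -- a light neighbour in `B` of `x` forces `N(x) ∩ A` to be small, and symmetrically
  have small : ∀ (C D : Finset V) (a : V), D = lt G a → C.card + d ≤ n + 4 →
      (∀ x, (nb G x).card ≤ (nb G x ∩ C).card + (nb G x ∩ D).card + (n - (A ∪ B).card)) →
      ∀ x y, y ∈ lt G x → y ∈ D → (nb G x ∩ C).card + 4 * d ≤ 2 * n + 15 := by
    intro C D a hDa hC hs x y hyx hyD
    have h1 : (nb G y ∩ D).card ≤ 3 := by
      rw [hDa] at hyD ⊢
      have h2 := ((mem_lt G).1 hyD).2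
      refine le_trans (card_le_card ?_) h2
      intro w hw'
      rw [mem_inter] at hw' ⊢
      exact ⟨(filter_subset _ _) hw'.2, hw'.1⟩
    have h2 := hs y
    have h3 := hdeg y
    have h4 : (nb G x ∩ nb G y).card ≤ 3 := ((mem_lt G).1 hyx).2
    have h5 : (nb G x ∩ C).card ≤ (nb G x ∩ nb G y).card + (C \ nb G y).card := by
      refine le_trans (card_le_card ?_) (card_union_le _ _)
      intro w hw'
      rw [mem_inter] at hw'
      rw [mem_union, mem_inter, mem_sdiff]
      by_cases h6 : w ∈ nb G y
      · exact Or.inl ⟨hw'.1, h6⟩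
      · exact Or.inr ⟨hw'.2, h6⟩
    have h6 : (C \ nb G y).card + (C ∩ nb G y).card = C.card := card_sdiff_add_card_inter _ _
    rw [inter_comm C] at h6
    omega
  have smallA : ∀ x y, y ∈ lt G x → y ∈ B → (nb G x ∩ A).card + 4 * d ≤ 2 * n + 15 :=
    small A B u hB (by omega) hsplit
  have smallB : ∀ x y, y ∈ lt G x → y ∈ A → (nb G x ∩ B).card + 4 * d ≤ 2 * n + 15 :=
    small B A v hA (by omega) (fun x => by have := hsplit x; omega)
  -- the classes
  refine ⟨fun x => decide (2 * n + 15 < (nb G x ∩ A).card + 4 * d), ?_⟩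
  -- vertices of class `true`
  have classT : ∀ x, 2 * n + 15 < (nb G x ∩ A).card + 4 * d → 3 * d ≤ (nb G x ∩ A).card + n + 6 := by
    intro x hx
    have h1 : (nb G x ∩ B).card ≤ (nb G x \ lt G x).card := by
      apply card_le_card
      intro y hy
      rw [mem_inter] at hy
      rw [mem_sdiff]
      refine ⟨hy.1, fun hyl => ?_⟩
      have := smallA x y hyl hy.2
      omega
    have h2 := heavy1 x
    have h3 := hsplit x
    have h4 := hdeg x
    omega
  have classF : ∀ x, ¬ 2 * n + 15 < (nb G x ∩ A).card + 4 * d →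
      3 * d ≤ (nb G x ∩ B).card + n + 6 := by
    intro x hx
    have h3 := hsplit x
    have h4 := hdeg x
    have h1 : (nb G x ∩ A).card ≤ (nb G x \ lt G x).card := by
      apply card_le_card
      intro y hy
      rw [mem_inter] at hy
      rw [mem_sdiff]
      refine ⟨hy.1, fun hyl => ?_⟩
      have := smallB x y hyl hy.2
      omega
    have h2 := heavy1 x
    omega
  -- light edges go across
  have across : ∀ (C : Finset V), C.card + d ≤ n + 4 → ∀ x y,
      3 * d ≤ (nb G x ∩ C).card + n + 6 → 3 * d ≤ (nb G y ∩ C).card + n + 6 → y ∉ lt G x := by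
    intro C hC x y hx hy hyx
    have h1 : (nb G x ∩ nb G y).card ≤ 3 := ((mem_lt G).1 hyx).2
    have h2 : ((nb G x ∩ C) ∪ (nb G y ∩ C)).card + ((nb G x ∩ C) ∩ (nb G y ∩ C)).card =
        (nb G x ∩ C).card + (nb G y ∩ C).card := card_union_add_card_inter _ _
    have h3 : ((nb G x ∩ C) ∪ (nb G y ∩ C)).card ≤ C.card := by
      apply card_le_card
      intro w hw'
      simp only [mem_union, mem_inter] at hw'
      tauto
    have h4 : ((nb G x ∩ C) ∩ (nb G y ∩ C)).card ≤ (nb G x ∩ nb G y).card := by
      apply card_le_card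
      intro w hw'
      simp only [mem_inter] at hw' ⊢
      tauto
    omega
  intro x
  refine le_trans (card_le_card ?_) (heavy1 x)
  intro y hy
  rw [mem_filter] at hy
  rw [mem_sdiff]
  refine ⟨hy.1, ?_⟩
  have h1 := hy.2
  by_cases hx : 2 * n + 15 < (nb G x ∩ A).card + 4 * d
  · have hy' : 2 * n + 15 < (nb G y ∩ A).card + 4 * d := by
      simpa [hx] using h1
    exact across A (by omega) x y (classT x hx) (classT y hy')
  · have hy' : ¬ 2 * n + 15 < (nb G y ∩ A).card + 4 * d := by
      simpa [hx] using h1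
    exact across B (by omega) x y (classF x hx) (classF y hy')

end Pool.Agent.X51.Wheel
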