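import Pool.Agent.X51.Wheel.Structure

set_option autoImplicit false

/-!
# Thresholds of the wheel with four spokes
-/

namespace Pool.Agent.X51.Wheel

open SimpleGraph Finset

/-! ### copies of the wheel -/

theorem wheel_contained {V : Type} (G : SimpleGraph V) (v x z y w : V)
    (hvx : G.Adj v x) (hvz : G.Adj v z) (hvy : G.Adj v y) (hvw : G.Adj v w)
    (hxz : G.Adj x z) (hzy : G.Adj z y) (hyw : G.Adj y w) (hwx : G.Adj w x)
    (hxy : x ≠ y) (hzw : z ≠ w) : ¬ wheel.Free G := by
  intro hfree
  apply hfree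
  refine ⟨⟨⟨![v, x, z, y, w], ?_⟩, ?_⟩⟩
  · intro i j hij
    obtain ⟨h1, h2⟩ := hij
    fin_cases i <;> fin_cases j <;> simp at h1 h2 ⊢ <;>
      first | assumption | (apply SimpleGraph.Adj.symm; assumption)
  · intro i j hij
    have n1 := hvx.ne
    have n2 := hvz.ne
    have n3 := hvy.ne
    have n4 := hvw.ne
    have n5 := hxz.ne
    have n6 := hzy.ne
    have n7 := hyw.ne
    have n8 := hwx.ne
    fin_cases i <;> fin_cases j <;> simp at hij ⊢ <;>
      first | (exact absurd hij (by assumption)) | (exact absurd hij.symm (by assumption))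

/-- In a wheel-free graph, three vertices forming a path have at most one common neighbour. -/
theorem codegree_of_free {V : Type} [Fintype V] [DecidableEq V] (G : SimpleGraph V)
    [DecidableRel G.Adj] (hfree : wheel.Free G) (v x y : V) (hxy : x ≠ y) (hvx : G.Adj v x)
    (hvy : G.Adj v y) : (nb G v ∩ nb G x ∩ nb G y).card ≤ 1 := by
  by_contra hcon
  obtain ⟨z, hz, w, hw, hzw⟩ := one_lt_card.1 (show 1 < (nb G v ∩ nb G x ∩ nb G y).card by omega)
  simp only [mem_inter, mem_nb] at hz hw
  exact wheel_contained G v x z y w hvx hz.1.1 hvy hw.1.1 hz.1.2 hz.2.symm hw.2 hw.1.2.symm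
    hxy hzw hfree

/-- A graph with a 2-colouring of its vertices such that no vertex has two neighbours in its own
class contains no wheel. -/
theorem free_of_matching {V : Type} (G : SimpleGraph V) (c : V → Bool)
    (h : ∀ v x y, x ≠ y → G.Adj v x → G.Adj v y → ¬ (c x = c v ∧ c y = c v)) : wheel.Free G := by
  rintro ⟨f⟩
  have hinj : Function.Injective f.toHom := f.injective'
  have adj : ∀ i j : Fin 5, i ≠ j ∧ (i = 0 ∨ j = 0 ∨ (i.val + j.val) % 2 = 1) →
      G.Adj (f.toHom i) (f.toHom j) := fun i j hij => f.toHom.map_rel hij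
  have key : ∀ i j k : Fin 5, j ≠ k → (i ≠ j ∧ (i = 0 ∨ j = 0 ∨ (i.val + j.val) % 2 = 1)) →
      (i ≠ k ∧ (i = 0 ∨ k = 0 ∨ (i.val + k.val) % 2 = 1)) →
      ¬ (c (f.toHom j) = c (f.toHom i) ∧ c (f.toHom k) = c (f.toHom i)) := by
    intro i j k hjk hij hik
    exact h _ _ _ (fun e => hjk (hinj e)) (adj i j hij) (adj i k hik)
  -- classes of the five vertices
  have k012 := key 0 1 2 (by decide) (by decide) (by decide)
  have k013 := key 0 1 3 (by decide) (by decide) (by decide)
  have k014 := key 0 1 4 (by decide) (by decide) (by decide)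
  have k023 := key 0 2 3 (by decide) (by decide) (by decide)
  have k024 := key 0 2 4 (by decide) (by decide) (by decide)
  have k034 := key 0 3 4 (by decide) (by decide) (by decide)
  have k1 := key 1 2 4 (by decide) (by decide) (by decide)
  have k2 := key 2 1 3 (by decide) (by decide) (by decide)
  have k3 := key 3 2 4 (by decide) (by decide) (by decide)
  have k4 := key 4 1 3 (by decide) (by decide) (by decide)
  generalize c (f.toHom 0) = b0 at *
  generalize c (f.toHom 1) = b1 at *
  generalize c (f.toHom 2) = b2 at *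
  generalize c (f.toHom 3) = b3 at *
  generalize c (f.toHom 4) = b4 at *
  clear key adj hinj h
  cases b0 <;> cases b1 <;> cases b2 <;> cases b3 <;> cases b4 <;> simp_all

/-! ### the structure theorem for `Fin n` -/

theorem structure_free {n : ℕ} (hbig : 1000 ≤ n) (G : SimpleGraph (Fin n))
    (hfree : wheel.Free G) (hdeg : MinDegreeGe G (49 / 100)) :
    ∃ c : Fin n → Bool, ∀ v x y, x ≠ y → G.Adj v x → G.Adj v y → ¬ (c x = c v ∧ c y = c v) := by
  classical
  have hd : 49 * n ≤ 100 * G.minDegree := by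
    unfold MinDegreeGe at hdeg
    rw [Fintype.card_fin] at hdeg
    have h1 : (49 : ℝ) * n ≤ 100 * (G.minDegree : ℝ) := by
      have h2 : (49 / 100 : ℝ) * n * 100 ≤ (G.minDegree : ℝ) * 100 := by
        apply mul_le_mul_of_nonneg_right _ (by norm_num)
        convert hdeg
      linarith
    exact_mod_cast h1
  obtain ⟨c, hc⟩ := structure_thm G G.minDegree n (Fintype.card_fin n) hbig hd
    (fun v => by
      have h1 := G.minDegree_le_degree v
      have h2 : nb G v = G.neighborFinset v := by
        ext w; simp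
      rw [h2]
      exact h1)
    (fun v x y hxy hvx hvy => codegree_of_free G hfree v x y hxy hvx hvy)
  refine ⟨c, ?_⟩
  intro v x y hxy hvx hvy hcc
  have h1 := hc v
  have h2 : 1 < ((nb G v).filter fun w => c w = c v).card := by
    rw [one_lt_card]
    refine ⟨x, ?_, y, ?_, hxy⟩
    · rw [mem_filter, mem_nb]; exact ⟨hvx, hcc.1⟩
    · rw [mem_filter, mem_nb]; exact ⟨hvy, hcc.2⟩
  omega

/-! ### the VC-threshold -/

theorem vc_le_of_structure {n : ℕ} (G : SimpleGraph (Fin n)) (c : Fin n → Bool)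
    (hc : ∀ v x y, x ≠ y → G.Adj v x → G.Adj v y → ¬ (c x = c v ∧ c y = c v))
    (hfull : ∀ x y, c x ≠ c y → G.Adj x y) : VC G ≤ 4 := by
  classical
  unfold VC
  apply csSup_le'
  rintro k ⟨S, rfl, hS⟩
  by_contra hcon
  -- three vertices of `S` in one class
  obtain ⟨b, hb⟩ : ∃ b : Bool, 2 < (S.filter fun x => c x = b).card := by
    by_contra hno
    push Not at hno
    have h1 := hno true
    have h2 := hno false
    have h3 : S.card = (S.filter fun x => c x = true).card +
        (S.filter fun x => c x = false).card := by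
      rw [← Finset.card_filter_add_card_filter_not (s := S) (fun x => c x = true)]
      congr 2
      ext x
      simp
    omega
  obtain ⟨p, q, r, hp, hq, hr, hpq, hpr, hqr⟩ := Finset.two_lt_card_iff.1 hb
  rw [mem_filter] at hp hq hr
  obtain ⟨x, hSu⟩ := hS {p, q} (by
    intro z hz
    rw [mem_insert, mem_singleton] at hz
    rcases hz with rfl | rfl
    · exact hp.1
    · exact hq.1)
  have hxp : G.Adj x p := by
    have : p ∈ G.neighborSet x ∩ (S : Set (Fin n)) := by rw [hSu]; simp
    exact this.1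
  have hxq : G.Adj x q := by
    have : q ∈ G.neighborSet x ∩ (S : Set (Fin n)) := by rw [hSu]; simp
    exact this.1
  have hxr : ¬ G.Adj x r := by
    intro h
    have : r ∈ G.neighborSet x ∩ (S : Set (Fin n)) := ⟨h, hr.1⟩
    rw [hSu, mem_coe, mem_insert, mem_singleton] at this
    rcases this with h | h
    · exact hpr h.symm
    · exact hqr h.symm
  have hcx : c x = b := by
    by_contra h
    exact hxr (hfull x r (by rw [hr.2]; exact h))
  exact hc x p q hpq hxp hxq ⟨hp.2.trans hcx.symm, hq.2.trans hcx.symm⟩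

theorem full_of_maximal {n : ℕ} (G : SimpleGraph (Fin n)) (hG : MaximalFree wheel G)
    (c : Fin n → Bool)
    (hc : ∀ v x y, x ≠ y → G.Adj v x → G.Adj v y → ¬ (c x = c v ∧ c y = c v)) (x y : Fin n)
    (hxy : c x ≠ c y) : G.Adj x y := by
  by_contra hadj
  have hne : x ≠ y := fun h => hxy (by rw [h])
  apply hG.2 x y hne hadj
  apply free_of_matching _ c
  intro v a b hab hva hvb hcc
  rw [sup_adj, edge_adj] at hva hvb
  rcases hva with hva | hva
  · rcases hvb with hvb | hvb
    · exact hc v a b hab hva hvb hcc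
    · rcases hvb.1 with ⟨rfl, rfl⟩ | ⟨rfl, rfl⟩
      · exact hxy hcc.2.symm
      · exact hxy hcc.2
  · rcases hva.1 with ⟨rfl, rfl⟩ | ⟨rfl, rfl⟩
    · exact hxy hcc.1.symm
    · exact hxy hcc.1

theorem deltaVC_wheel_le : deltaVC wheel ≤ 49 / 100 := by
  classical
  unfold deltaVC
  apply csInf_le
  · exact ⟨0, fun α hα => hα.1⟩
  · refine ⟨by norm_num, 1000 + 4, ?_⟩
    intro n G hG hdeg
    by_cases hn : n < 1000
    · have h1 : VC G ≤ n := by
        unfold VC
        apply csSup_le'
        rintro k ⟨S, rfl, _⟩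
        have := Finset.card_le_univ S
        rwa [Fintype.card_fin] at this
      omega
    · obtain ⟨c, hc⟩ := structure_free (by omega) G hG.1 hdeg
      have h1 := vc_le_of_structure G c hc (full_of_maximal G hG c hc)
      omega

/-! ### the homomorphism threshold -/

/-- All wheel-free graphs on `Fin N`, side by side. -/
def universal (N : ℕ) : SimpleGraph (SimpleGraph (Fin N) × Fin N) where
  Adj p q := p.1 = q.1 ∧ wheel.Free p.1 ∧ p.1.Adj p.2 q.2
  symm := ⟨by
    rintro ⟨K, x⟩ ⟨L, y⟩ ⟨h1, h2, h3⟩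
    simp only at h1 h2 h3
    subst h1
    exact ⟨rfl, h2, h3.symm⟩⟩
  loopless := ⟨by
    rintro ⟨K, x⟩ ⟨_, _, h3⟩
    exact h3.ne rfl⟩

theorem universal_free (N : ℕ) : wheel.Free (universal N) := by
  rintro ⟨f⟩
  have hadj : ∀ i : Fin 5, i ≠ 0 → (universal N).Adj (f.toHom 0) (f.toHom i) := fun i hi =>
    f.toHom.map_rel (show wheel.Adj 0 i from ⟨hi.symm, Or.inl rfl⟩)
  have hK : ∀ i : Fin 5, (f.toHom 0).1 = (f.toHom i).1 := by
    intro i
    by_cases hi : i = 0
    · rw [hi]
    · exact (hadj i hi).1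
  have hfree : wheel.Free (f.toHom 0).1 := (hadj 1 (by decide)).2.1
  apply hfree
  refine ⟨⟨⟨fun i => (f.toHom i).2, ?_⟩, ?_⟩⟩
  · intro i j hij
    have := (f.toHom.map_rel hij : (universal N).Adj (f.toHom i) (f.toHom j)).2.2
    rw [← hK i] at this
    exact this
  · intro i j hij
    apply f.injective'
    exact Prod.ext ((hK i).symm.trans (hK j)) hij

theorem map_free {n N : ℕ} (f : Fin n ↪ Fin N) (G : SimpleGraph (Fin n)) (h : wheel.Free G) :
    wheel.Free (G.map f) := by
  rintro ⟨φ⟩
  apply h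
  have hran : ∀ i : Fin 5, ∃ a, f a = φ.toHom i := by
    intro i
    have : ∃ j, wheel.Adj i j := by
      by_cases hi : i = 0
      · exact ⟨1, by rw [hi]; decide, Or.inl hi⟩
      · exact ⟨0, hi, Or.inr (Or.inl rfl)⟩
    obtain ⟨j, hj⟩ := this
    have h1 : (G.map f).Adj (φ.toHom i) (φ.toHom j) := φ.toHom.map_rel hj
    obtain ⟨_, a, b, _, ha, _⟩ := h1
    exact ⟨a, ha⟩
  choose g hg using hran
  refine ⟨⟨⟨g, ?_⟩, ?_⟩⟩
  · intro i j hij
    have h1 : (G.map f).Adj (φ.toHom i) (φ.toHom j) := φ.toHom.map_rel hij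
    rw [← hg i, ← hg j, map_adj_apply] at h1
    exact h1
  · intro i j hij
    apply φ.injective'
    change g i = g j at hij
    rw [← hg i, ← hg j, hij]

theorem hom_universal {n N : ℕ} (hn : n ≤ N) (G : SimpleGraph (Fin n)) (h : wheel.Free G) :
    Nonempty (G →g universal N) := by
  refine ⟨⟨fun x => (G.map (Fin.castLEEmb hn), Fin.castLEEmb hn x), ?_⟩⟩
  intro x y hxy
  exact ⟨rfl, map_free _ G h, (map_adj_apply).2 hxy⟩

theorem card_four_free : wheel.Free (⊤ : SimpleGraph (Fin 4)) := by
  rintro ⟨f⟩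
  have := Fintype.card_le_of_injective _ f.injective'
  simp at this

/-- four colours suffice for graphs with the structure -/
theorem colour_of_structure {n : ℕ} (G : SimpleGraph (Fin n)) (c : Fin n → Bool)
    (hc : ∀ v x y, x ≠ y → G.Adj v x → G.Adj v y → ¬ (c x = c v ∧ c y = c v)) :
    G.Colorable 4 := by
  classical
  have h4 : Fintype.card (Bool × Bool) = 4 := by decide
  rw [← h4]
  refine (Coloring.mk (α := Bool × Bool)
    (fun x => (c x, decide (∃ w, G.Adj x w ∧ c w = c x ∧ w < x))) ?_).colorable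
  have key : ∀ x y, G.Adj x y → c x = c y → x < y →
      ¬ (decide (∃ w, G.Adj x w ∧ c w = c x ∧ w < x) =
        decide (∃ w, G.Adj y w ∧ c w = c y ∧ w < y)) := by
    intro x y hxy hcxy hlt heq
    have h1 : ∃ w, G.Adj y w ∧ c w = c y ∧ w < y := ⟨x, hxy.symm, hcxy, hlt⟩
    rw [decide_eq_decide] at heq
    obtain ⟨w, hw1, hw2, hw3⟩ := heq.2 h1
    exact hc x w y (hw3.trans hlt).ne hw1 hxy ⟨hw2, hcxy.symm⟩
  intro x y hxy heq
  rw [Prod.mk.injEq] at heq
  rcases lt_trichotomy x y with h | h | h
  · exact key x y hxy heq.1 h heq.2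
  · exact hxy.ne h
  · exact key y x hxy.symm heq.1.symm h heq.2.symm

theorem deltaHom_wheel_le : deltaHom wheel ≤ 49 / 100 := by
  classical
  unfold deltaHom
  apply csInf_le
  · exact ⟨0, fun α hα => hα.1⟩
  · refine ⟨by norm_num, ?_⟩
    have hfin : Fintype (SimpleGraph (Fin 1000) × Fin 1000) := Fintype.ofFinite _
    let e := Fintype.equivFin (SimpleGraph (Fin 1000) × Fin 1000)
    let F : SimpleGraph (Fin (Fintype.card (SimpleGraph (Fin 1000) × Fin 1000))) :=
      (universal 1000).map e.toEmbedding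
    have iso : universal 1000 ≃g F := SimpleGraph.Iso.map e (universal 1000)
    refine ⟨_, F, ?_, ?_⟩
    · intro hcon
      apply universal_free 1000
      exact hcon.trans ⟨iso.symm.toCopy⟩
    · intro n G hG hdeg
      by_cases hn : n ≤ 1000
      · obtain ⟨φ⟩ := hom_universal hn G hG
        exact ⟨iso.toHom.comp φ⟩
      · obtain ⟨c, hc⟩ := structure_free (by omega) G hG hdeg
        obtain ⟨col⟩ := colour_of_structure G c hc
        obtain ⟨φ⟩ := hom_universal (show 4 ≤ 1000 by norm_num) ⊤ card_four_free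
        exact ⟨iso.toHom.comp (φ.comp col)⟩

/-! ### the blowup threshold -/

/-- A complete balanced bipartite graph on `4k` vertices (even and odd numbers) together with
perfect matchings inside the two classes. -/
def bad (k : ℕ) : SimpleGraph (Fin (4 * k)) where
  Adj x y := x.val % 2 ≠ y.val % 2 ∨ (x ≠ y ∧ x.val / 4 = y.val / 4)
  symm := ⟨fun x y h => by
    rcases h with h | h
    · exact Or.inl h.symm
    · exact Or.inr ⟨h.1.symm, h.2.symm⟩⟩
  loopless := ⟨fun x h => by
    rcases h with h | h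
    · exact h rfl
    · exact h.1 rfl⟩

theorem bad_adj (k : ℕ) (x y : Fin (4 * k)) :
    (bad k).Adj x y ↔ x.val % 2 ≠ y.val % 2 ∨ (x ≠ y ∧ x.val / 4 = y.val / 4) := Iff.rfl

theorem bad_free (k : ℕ) : wheel.Free (bad k) := by
  apply free_of_matching _ (fun x => decide (x.val % 2 = 0))
  intro v x y hxy hvx hvy hcc
  rw [bad_adj] at hvx hvy
  simp only [decide_eq_decide] at hcc
  simp only [Ne, Fin.ext_iff] at hvx hvy hxy
  omega

theorem bad_maximal (k : ℕ) : MaximalFree wheel (bad k) := by
  refine ⟨bad_free k, ?_⟩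
  intro x y hxy hadj
  rw [bad_adj] at hadj
  push Not at hadj
  obtain ⟨hpar, hblk⟩ := hadj
  have hblk' := hblk hxy
  have hx := x.isLt
  -- the partner of `x`, and two vertices of the other class
  let x' : Fin (4 * k) := ⟨4 * (x.val / 4) + (x.val + 2) % 4, by omega⟩
  let z : Fin (4 * k) := ⟨4 * (x.val / 4) + (x.val + 1) % 4, by omega⟩
  let w : Fin (4 * k) := ⟨4 * (x.val / 4) + (x.val + 3) % 4, by omega⟩
  have ex' : x'.val = 4 * (x.val / 4) + (x.val + 2) % 4 := rfl
  have ez : z.val = 4 * (x.val / 4) + (x.val + 1) % 4 := rfl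
  have ew : w.val = 4 * (x.val / 4) + (x.val + 3) % 4 := rfl
  have hle : bad k ≤ bad k ⊔ edge x y := le_sup_left
  refine wheel_contained (bad k ⊔ edge x y) x x' z y w ?_ ?_ ?_ ?_ ?_ ?_ ?_ ?_ ?_ ?_
  · apply hle
    rw [bad_adj]
    simp only [Ne, Fin.ext_iff]
    omega
  · apply hle
    rw [bad_adj]
    left
    omega
  · rw [sup_adj, edge_adj]
    exact Or.inr ⟨Or.inl ⟨rfl, rfl⟩, hxy⟩
  · apply hle
    rw [bad_adj]
    left
    omega
  · apply hle
    rw [bad_adj]
    left
    omega
  · apply hle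
    rw [bad_adj]
    left
    omega
  · apply hle
    rw [bad_adj]
    left
    omega
  · apply hle
    rw [bad_adj]
    left
    omega
  · rw [Ne, Fin.ext_iff]
    omega
  · rw [Ne, Fin.ext_iff]
    omega

theorem bad_degree (k : ℕ) (x : Fin (4 * k)) [DecidableRel (bad k).Adj] :
    2 * k ≤ (bad k).degree x := by
  rw [← card_neighborFinset_eq_degree]
  have h : (univ.image fun j : Fin (2 * k) =>
      (⟨2 * j.val + (1 - x.val % 2), by have := j.isLt; omega⟩ : Fin (4 * k))) ⊆
      (bad k).neighborFinset x := by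
    intro y hy
    obtain ⟨j, _, rfl⟩ := mem_image.1 hy
    rw [mem_neighborFinset, bad_adj]
    left
    simp only
    omega
  refine le_trans ?_ (card_le_card h)
  rw [card_image_of_injective]
  · simp
  · intro i j hij
    simp only [Fin.mk.injEq] at hij
    exact Fin.ext (by omega)

theorem bad_not_blowup (k m : ℕ) (F : SimpleGraph (Fin m)) (h : IsBlowup (bad k) F) :
    4 * k ≤ m := by
  obtain ⟨φ, _, hφ⟩ := h
  have hinj : Function.Injective φ := by
    intro x y hxy
    by_contra hne
    have hnb : ∀ z, (bad k).Adj x z ↔ (bad k).Adj y z := by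
      intro z
      rw [hφ, hφ, hxy]
    by_cases hpar : x.val % 2 = y.val % 2
    · have hx := x.isLt
      let x' : Fin (4 * k) := ⟨4 * (x.val / 4) + (x.val + 2) % 4, by omega⟩
      have ex' : x'.val = 4 * (x.val / 4) + (x.val + 2) % 4 := rfl
      have h1 : (bad k).Adj x x' := by
        rw [bad_adj]
        simp only [Ne, Fin.ext_iff]
        omega
      have h2 := (hnb x').1 h1
      rw [bad_adj] at h2
      rw [Fin.ext_iff] at hne
      simp only [Ne, Fin.ext_iff] at h2
      omega
    · have h1 : (bad k).Adj x y := Or.inl hpar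
      exact ((hnb y).1 h1).ne rfl
  have := Fintype.card_le_of_injective φ hinj
  simpa using this

theorem half_le_deltaB : 1 / 2 ≤ deltaB wheel := by
  classical
  unfold deltaB
  apply le_csInf
  · refine ⟨2, by norm_num, 0, ?_⟩
    intro n G _ hdeg
    rcases Nat.eq_zero_or_pos n with rfl | hn
    · exact ⟨0, ⊥, le_rfl, fun x => x, Function.surjective_id, fun x => x.elim0⟩
    · exfalso
      unfold MinDegreeGe at hdeg
      rw [Fintype.card_fin] at hdeg
      have h1 : (G.minDegree : ℝ) < n := by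
        have h2 := G.minDegree_le_degree ⟨0, hn⟩
        have h3 := G.degree_lt_card_verts ⟨0, hn⟩
        rw [Fintype.card_fin] at h3
        exact_mod_cast lt_of_le_of_lt h2 h3
      have h4 : (0 : ℝ) < n := by exact_mod_cast hn
      have h5 : (2 : ℝ) * n ≤ (G.minDegree : ℝ) := by convert hdeg
      linarith
  · rintro α ⟨_, C, hC⟩
    by_contra hlt
    push Not at hlt
    have hk : 0 < C + 1 := Nat.succ_pos C
    obtain ⟨m, F, hm, hF⟩ := hC (4 * (C + 1)) (bad (C + 1)) (bad_maximal _) (by
      unfold MinDegreeGe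
      rw [Fintype.card_fin]
      have hne : Nonempty (Fin (4 * (C + 1))) := ⟨⟨0, by omega⟩⟩
      have h1 : 2 * (C + 1) ≤ (bad (C + 1)).minDegree :=
        le_minDegree_of_forall_le_degree _ _ fun v => bad_degree _ v
      have h2 : ((2 * (C + 1) : ℕ) : ℝ) ≤ ((bad (C + 1)).minDegree : ℝ) := by exact_mod_cast h1
      have h3 : α * ((4 * (C + 1) : ℕ) : ℝ) ≤ ((2 * (C + 1) : ℕ) : ℝ) := by
        push_cast
        have h4 : (0 : ℝ) ≤ (C : ℝ) := Nat.cast_nonneg C
        nlinarith
      refine h3.trans (h2.trans (le_of_eq ?_))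
      congr!)
    have := bad_not_blowup _ _ F hF
    omega

end Pool.Agent.X51.Wheel
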